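import Pool.Agent.N137.PdR.HP
import Pool.Agent.N137.PdR.H2

/-!
A counterexample in homological degree zero, where the Poisson-de Rham homology is
`HP_0(O_X) = O_X / {O_X, O_X}`: the irreducible affine Poisson surface
`X = Spec (ℂ + (x, y) ^ 2)` has the symplectic resolution `𝔸² → X`, its zeroth Poisson(-de Rham)
homology is one-dimensional, and `H²(𝔸²) = 0`.
-/

set_option autoImplicit false

namespace Pool.Agent.Results.MP_fc9dee_ag.FailsInDegreeZero

open Pool.Agent.TH212

/-- The cohomology `H^k(Y; ℂ)` of a topological space, as the dual space of its singular homology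
`H_k(Y; ℂ)` with complex coefficients. -/
abbrev Cohomology (k : ℕ) (Y : Type) [TopologicalSpace Y] : Type :=
  Module.Dual ℂ (((AlgebraicTopology.singularHomologyFunctor (ModuleCat.{0} ℂ) k).obj
    (ModuleCat.of ℂ ℂ)).obj (TopCat.of Y))

/-- Let `O` be the algebra of all `f ∈ ℂ[x, y]` with `∂_x f (0) = ∂_y f (0) = 0`, with the
restriction `P` of the bracket `Q` of `ℂ[x, y]`, `{f, g} = ∂_y f ∂_x g - ∂_x f ∂_y g`. Then
`X = Spec O` is an irreducible affine Poisson variety, the morphism `𝔸² → X` is a symplectic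
resolution, `dim HP_0(O) = 1` and `dim H²(𝔸²(ℂ); ℂ) = 0`. -/
theorem result :
    ∃ (O : Subalgebra ℂ (MvPolynomial (Fin 2) ℂ)) (P : PoissonBracket O)
      (Q : PoissonBracket (MvPolynomial (Fin 2) ℂ)),
      (∀ f, f ∈ O ↔ ∀ i, MvPolynomial.constantCoeff (MvPolynomial.pderiv i f) = 0) ∧
      (∀ f g, Q.br f g = MvPolynomial.pderiv 1 f * MvPolynomial.pderiv 0 g -
        MvPolynomial.pderiv 0 f * MvPolynomial.pderiv 1 g) ∧
      IsDomain O ∧ Algebra.FiniteType ℂ O ∧ IsSymplecticResolution P Q O.val ∧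
      Module.rank ℂ P.HP0 = 1 ∧ Module.rank ℂ (Cohomology 2 (Fin 2 → ℂ)) = 0 := by
  refine ⟨OX, PO, PR, fun _ => mem_OX, pb_apply, inferInstance, finiteType_OX, resolution,
    Pool.Agent.N137.PdR.rank_HP0, ?_⟩
  have h := Pool.Agent.N137.PdR.isZero_of_contractible (Fin 2 → ℂ) 2 (by norm_num)
  have h2 : Subsingleton (((AlgebraicTopology.singularHomologyFunctor (ModuleCat.{0} ℂ) 2).obj
    (ModuleCat.of ℂ ℂ)).obj (TopCat.of (Fin 2 → ℂ))) := ModuleCat.subsingleton_of_isZero h
  have h3 : Subsingleton (Cohomology 2 (Fin 2 → ℂ)) :=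
    ⟨fun a b => LinearMap.ext fun x => by rw [Subsingleton.elim x 0, map_zero, map_zero]⟩
  exact rank_subsingleton' _ _

end Pool.Agent.Results.MP_fc9dee_ag.FailsInDegreeZero
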